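import Pool.Agent.Helper53.UR.Goals
import Pool.Agent.Helper53.CTG.All

/-!
# PROJECT UR (MP_c578c8_lc), packet ACC (helper32)
-/

namespace Pool.Agent.Helper32.UR

open Pool.Agent.Helper53.UR
open Pool.Agent.Helper1.TE (Gad app)
open Pool.Agent.Helper53.CTG (De root Nt Hb Et gadC ev op runs canR)

theorem gACC : GoalACC := by
  intro β M hM o ρ
  have hq := hM.hq o
  have hN := hM.hN o
  have hb := hM.hb o
  have hc := hM.hc o
  have hWe := hM.hW o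
  have hW : 2 ^ (3 * M.b o) ≤ M.W o := by
    rw [hWe]
    exact (Pool.Agent.Helper85.CTG.gPB (M.N o) (M.q o) (M.b o) (M.c o) hq hN hb hc).2.2.2.2.2.2.2.1
  have hg := Pool.Agent.Helper53.CTG.ok9 (M.b o) (M.W o) hb hW
  have hcK : 2 ^ M.c o ≤ (gadC (M.b o) (M.W o)).K := Nat.pow_le_pow_right (by norm_num) hc
  have ht : ∀ m v x y z, M.t o m v x y z < (gadC (M.b o) (M.W o)).K :=
    fun m v x y z => hM.ht o m v x y z
  have hK : 0 < (gadC (M.b o) (M.W o)).K := by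
    show 0 < 2 ^ M.b o
    positivity
  have hK3 : (gadC (M.b o) (M.W o)).K ^ 3 = 8 ^ M.b o := by
    show (2 ^ M.b o) ^ 3 = 8 ^ M.b o
    rw [← pow_mul, mul_comm, pow_mul]; norm_num
  have hV : ∀ j : ℕ, (gadC (M.b o) (M.W o)).V ((fun _ : ℕ => ((0 : ℕ), (0 : ℕ))) j) := by
    intro j
    show 0 < (36 * M.b o + Pool.Agent.Helper53.CTG.Rb (M.b o)) ^ (4 * M.b o + 2)
    have := hb
    positivity
  have key : ∀ (γ : ℕ → ℕ) (s' : (ℕ → ℕ × ℕ) × ℕ), (∀ τ, γ τ < 8 ^ M.b o) →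
      (runs (M.opM o ρ) γ (13 ^ Nt (M.N o) (M.q o)) (fun _ => (0, 0), 0) = some s' ↔
        (∀ τ < 13 ^ Nt (M.N o) (M.q o), γ τ =
          canR (2 ^ M.b o) (M.t o) (M.N o) (M.q o) (M.c o) (0 % 2 ^ M.c o) τ) ∧
        ∃ z, app (gadC (M.b o) (M.W o)) (M.tst o ρ) 0
          (ev (M.t o) (M.q o) (M.c o) (M.N o) 1 (0 % 2 ^ M.c o)) (0, 0) = some z ∧
          s' = (Function.update (fun _ => (0, 0)) (3 * M.q o + 2 * (Hb (M.N o) (M.q o) % 2)) z, 0)) := by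
    intro γ s' hγ
    exact Pool.Agent.Helper53.CTG.algOK (gadC (M.b o) (M.W o)) hg (M.tst o ρ) (M.t o) (M.N o) (M.q o)
      (M.c o) ⟨ht, hcK⟩ hq hN γ (fun _ => (0, 0)) 0 s' (fun τ => by rw [hK3]; exact hγ τ) hV
  have hcan : ∀ τ, canR (2 ^ M.b o) (M.t o) (M.N o) (M.q o) (M.c o) (0 % 2 ^ M.c o) τ < 8 ^ M.b o := by
    intro τ
    rw [← hK3]
    exact Pool.Agent.Helper51.CTG.canR_lt hK ht _ _ _ _ _ (by rw [Nat.zero_mod]; exact hK)
  constructor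
  · constructor
    · rintro ⟨s', γ, hγ, hs'⟩
      obtain ⟨-, z, hz, -⟩ := (key γ s' hγ).1 hs'
      rw [Nat.zero_mod] at hz
      intro h0
      simp [app, h0] at hz
    · intro h1
      refine ⟨(Function.update (fun _ => (0, 0)) (3 * M.q o + 2 * (Hb (M.N o) (M.q o) % 2)) (0, 0), 0),
        fun τ => canR (2 ^ M.b o) (M.t o) (M.N o) (M.q o) (M.c o) (0 % 2 ^ M.c o) τ, hcan, ?_⟩
      refine (key _ _ hcan).2 ⟨fun τ _ => rfl, (0, 0), ?_, rfl⟩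
      rw [Nat.zero_mod]
      simp [app, h1]
  · intro γ γ' hγ hγ' h h' τ hτ
    obtain ⟨s, hs⟩ := Option.isSome_iff_exists.1 h
    obtain ⟨s', hs'⟩ := Option.isSome_iff_exists.1 h'
    rw [((key γ s hγ).1 hs).1 τ hτ, ((key γ' s' hγ').1 hs').1 τ hτ]

end Pool.Agent.Helper32.UR
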